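import Pool.Agent.Helper40.Ac.FiveC

/-! Kernel computations for the patterns of five points. -/

namespace Pool.Agent.Helper40.Ac

open Pool.Agent.Helper86.Acute Pool.Agent.Helper86.Ac

theorem ck_a : all4 (fun s1 => all4 (fun s2 => all4 (fun s3 => ck .a s1 s2 s3))) = true := by
  decide +kernel

theorem ck_b : all4 (fun s1 => all4 (fun s2 => all4 (fun s3 => ck .b s1 s2 s3))) = true := by
  decide +kernel

theorem ck_c : all4 (fun s1 => all4 (fun s2 => all4 (fun s3 => ck .c s1 s2 s3))) = true := by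
  decide +kernel

theorem ck_d : all4 (fun s1 => all4 (fun s2 => all4 (fun s3 => ck .d s1 s2 s3))) = true := by
  decide +kernel

/-- the number of an orientation pattern of ten triples -/
def enc (b0 b1 b2 b3 b4 b5 b6 b7 b8 b9 : Bool) : Nat :=
  Nat.add b0.toNat (Nat.mul 2 (Nat.add b1.toNat (Nat.mul 2 (Nat.add b2.toNat (Nat.mul 2
    (Nat.add b3.toNat (Nat.mul 2 (Nat.add b4.toNat (Nat.mul 2 (Nat.add b5.toNat (Nat.mul 2
      (Nat.add b6.toNat (Nat.mul 2 (Nat.add b7.toNat (Nat.mul 2 (Nat.add b8.toNat (Nat.mul 2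
        b9.toNat)))))))))))))))))

/-- test for both values -/
def all2 (f : Bool → Bool) : Bool := and (f false) (f true)

/-- test for all orientation patterns -/
def allB (f : Bool → Bool → Bool → Bool → Bool → Bool → Bool → Bool → Bool → Bool → Bool) :
    Bool :=
  all2 (fun b0 => all2 (fun b1 => all2 (fun b2 => all2 (fun b3 => all2 (fun b4 => all2 (fun b5 =>
    all2 (fun b6 => all2 (fun b7 => all2 (fun b8 => all2 (fun b9 =>
      f b0 b1 b2 b3 b4 b5 b6 b7 b8 b9))))))))))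

/-- equality of truth values -/
def beqB (x y : Bool) : Bool := Bool.casesOn x (Bool.casesOn y true false) y

/-- entry of a bit mask -/
def tb (N j : Nat) : Bool := Nat.beq (Nat.land (Nat.shiftRight N j) 1) 1

theorem hx0 : allB (fun b0 b1 b2 b3 b4 b5 b6 b7 b8 b9 =>
    beqB (tb x0 (enc b0 b1 b2 b3 b4 b5 b6 b7 b8 b9)) b0) = true := by decide +kernel

theorem hy0 : allB (fun b0 b1 b2 b3 b4 b5 b6 b7 b8 b9 =>
    beqB (tb y0 (enc b0 b1 b2 b3 b4 b5 b6 b7 b8 b9)) (not b0)) = true := by decide +kernel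

theorem hx1 : allB (fun b0 b1 b2 b3 b4 b5 b6 b7 b8 b9 =>
    beqB (tb x1 (enc b0 b1 b2 b3 b4 b5 b6 b7 b8 b9)) b1) = true := by decide +kernel

theorem hy1 : allB (fun b0 b1 b2 b3 b4 b5 b6 b7 b8 b9 =>
    beqB (tb y1 (enc b0 b1 b2 b3 b4 b5 b6 b7 b8 b9)) (not b1)) = true := by decide +kernel

theorem hx2 : allB (fun b0 b1 b2 b3 b4 b5 b6 b7 b8 b9 =>
    beqB (tb x2 (enc b0 b1 b2 b3 b4 b5 b6 b7 b8 b9)) b2) = true := by decide +kernel

theorem hy2 : allB (fun b0 b1 b2 b3 b4 b5 b6 b7 b8 b9 =>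
    beqB (tb y2 (enc b0 b1 b2 b3 b4 b5 b6 b7 b8 b9)) (not b2)) = true := by decide +kernel

theorem hx3 : allB (fun b0 b1 b2 b3 b4 b5 b6 b7 b8 b9 =>
    beqB (tb x3 (enc b0 b1 b2 b3 b4 b5 b6 b7 b8 b9)) b3) = true := by decide +kernel

theorem hy3 : allB (fun b0 b1 b2 b3 b4 b5 b6 b7 b8 b9 =>
    beqB (tb y3 (enc b0 b1 b2 b3 b4 b5 b6 b7 b8 b9)) (not b3)) = true := by decide +kernel

theorem hx4 : allB (fun b0 b1 b2 b3 b4 b5 b6 b7 b8 b9 =>
    beqB (tb x4 (enc b0 b1 b2 b3 b4 b5 b6 b7 b8 b9)) b4) = true := by decide +kernel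

theorem hy4 : allB (fun b0 b1 b2 b3 b4 b5 b6 b7 b8 b9 =>
    beqB (tb y4 (enc b0 b1 b2 b3 b4 b5 b6 b7 b8 b9)) (not b4)) = true := by decide +kernel

theorem hx5 : allB (fun b0 b1 b2 b3 b4 b5 b6 b7 b8 b9 =>
    beqB (tb x5 (enc b0 b1 b2 b3 b4 b5 b6 b7 b8 b9)) b5) = true := by decide +kernel

theorem hy5 : allB (fun b0 b1 b2 b3 b4 b5 b6 b7 b8 b9 =>
    beqB (tb y5 (enc b0 b1 b2 b3 b4 b5 b6 b7 b8 b9)) (not b5)) = true := by decide +kernel

theorem hx6 : allB (fun b0 b1 b2 b3 b4 b5 b6 b7 b8 b9 =>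
    beqB (tb x6 (enc b0 b1 b2 b3 b4 b5 b6 b7 b8 b9)) b6) = true := by decide +kernel

theorem hy6 : allB (fun b0 b1 b2 b3 b4 b5 b6 b7 b8 b9 =>
    beqB (tb y6 (enc b0 b1 b2 b3 b4 b5 b6 b7 b8 b9)) (not b6)) = true := by decide +kernel

theorem hx7 : allB (fun b0 b1 b2 b3 b4 b5 b6 b7 b8 b9 =>
    beqB (tb x7 (enc b0 b1 b2 b3 b4 b5 b6 b7 b8 b9)) b7) = true := by decide +kernel

theorem hy7 : allB (fun b0 b1 b2 b3 b4 b5 b6 b7 b8 b9 =>
    beqB (tb y7 (enc b0 b1 b2 b3 b4 b5 b6 b7 b8 b9)) (not b7)) = true := by decide +kernel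

theorem hx8 : allB (fun b0 b1 b2 b3 b4 b5 b6 b7 b8 b9 =>
    beqB (tb x8 (enc b0 b1 b2 b3 b4 b5 b6 b7 b8 b9)) b8) = true := by decide +kernel

theorem hy8 : allB (fun b0 b1 b2 b3 b4 b5 b6 b7 b8 b9 =>
    beqB (tb y8 (enc b0 b1 b2 b3 b4 b5 b6 b7 b8 b9)) (not b8)) = true := by decide +kernel

theorem hx9 : allB (fun b0 b1 b2 b3 b4 b5 b6 b7 b8 b9 =>
    beqB (tb x9 (enc b0 b1 b2 b3 b4 b5 b6 b7 b8 b9)) b9) = true := by decide +kernel

theorem hy9 : allB (fun b0 b1 b2 b3 b4 b5 b6 b7 b8 b9 =>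
    beqB (tb y9 (enc b0 b1 b2 b3 b4 b5 b6 b7 b8 b9)) (not b9)) = true := by decide +kernel

/-- a cube if the bit `k` of `m` is set -/
def lc (m k v : Nat) : Nat := Bool.casesOn (tb m k) 0 v

/-- intersection of four sets -/
def cu (a b c d : Nat) : Nat := Nat.land (Nat.land a b) (Nat.land c d)

/-- lift of a mask of sixteen bits -/
def lift (m x0 y0 x1 y1 x2 y2 x3 y3 : Nat) : Nat :=
  Nat.lor (Nat.lor
    (Nat.lor (Nat.lor (lc m 0 (cu y0 y1 y2 y3)) (lc m 1 (cu x0 y1 y2 y3)))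
      (Nat.lor (lc m 2 (cu y0 x1 y2 y3)) (lc m 3 (cu x0 x1 y2 y3))))
    (Nat.lor (Nat.lor (lc m 4 (cu y0 y1 x2 y3)) (lc m 5 (cu x0 y1 x2 y3)))
      (Nat.lor (lc m 6 (cu y0 x1 x2 y3)) (lc m 7 (cu x0 x1 x2 y3)))))
    (Nat.lor
    (Nat.lor (Nat.lor (lc m 8 (cu y0 y1 y2 x3)) (lc m 9 (cu x0 y1 y2 x3)))
      (Nat.lor (lc m 10 (cu y0 x1 y2 x3)) (lc m 11 (cu x0 x1 y2 x3))))
    (Nat.lor (Nat.lor (lc m 12 (cu y0 y1 x2 x3)) (lc m 13 (cu x0 y1 x2 x3)))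
      (Nat.lor (lc m 14 (cu y0 x1 x2 x3)) (lc m 15 (cu x0 x1 x2 x3)))))

/-- value of a tree -/
def pv (T : T4) (s1 s2 s3 s4 : St) : Nat := ((((T.sel s1).sel s2).sel s3).sel s4).val

theorem hl0 : all4 (fun s1 => all4 (fun s2 => all4 (fun s3 => all4 (fun s4 =>
    Nat.beq (pv LT0 s1 s2 s3 s4) (lift (pv maskT s1 s2 s3 s4)
      x0 y0 x1 y1 x2 y2 x3 y3))))) = true := by
  decide +kernel

theorem hl1 : all4 (fun s1 => all4 (fun s2 => all4 (fun s3 => all4 (fun s4 =>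
    Nat.beq (pv LT1 s1 s2 s3 s4) (lift (pv maskT s1 s2 s3 s4)
      x0 y0 x4 y4 x5 y5 x6 y6))))) = true := by
  decide +kernel

theorem hl2 : all4 (fun s1 => all4 (fun s2 => all4 (fun s3 => all4 (fun s4 =>
    Nat.beq (pv LT2 s1 s2 s3 s4) (lift (pv maskT s1 s2 s3 s4)
      x1 y1 x4 y4 x7 y7 x8 y8))))) = true := by
  decide +kernel

theorem hl3 : all4 (fun s1 => all4 (fun s2 => all4 (fun s3 => all4 (fun s4 =>
    Nat.beq (pv LT3 s1 s2 s3 s4) (lift (pv maskT s1 s2 s3 s4)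
      x2 y2 x5 y5 x7 y7 x9 y9))))) = true := by
  decide +kernel

theorem hl4 : all4 (fun s1 => all4 (fun s2 => all4 (fun s3 => all4 (fun s4 =>
    Nat.beq (pv LT4 s1 s2 s3 s4) (lift (pv maskT s1 s2 s3 s4)
      x3 y3 x6 y6 x8 y8 x9 y9))))) = true := by
  decide +kernel

end Pool.Agent.Helper40.Ac
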