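import Pool.Agent.Helper86.Ac.Goals
import Pool.Agent.Helper40.Ac.FiveRun

/-! Soundness of the search: `FiveStmt`. -/

namespace Pool.Agent.Helper40.Ac

open Pool.Agent.Helper86.Acute Pool.Agent.Helper86.Ac

theorem all4_all {f : St → Bool} (h : all4 f = true) (s : St) : f s = true := by
  unfold all4 at h
  simp only [Bool.and_eq_true] at h
  obtain ⟨h1, h2, h3, h4⟩ := h
  cases s
  · exact h1
  · exact h2
  · exact h3
  · exact h4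

theorem all2_all {f : Bool → Bool} (h : all2 f = true) (b : Bool) : f b = true := by
  unfold all2 at h
  simp only [Bool.and_eq_true] at h
  cases b
  · exact h.1
  · exact h.2

theorem allB_all {f : Bool → Bool → Bool → Bool → Bool → Bool → Bool → Bool → Bool → Bool → Bool}
    (h : allB f = true) (b0 b1 b2 b3 b4 b5 b6 b7 b8 b9 : Bool) :
    f b0 b1 b2 b3 b4 b5 b6 b7 b8 b9 = true :=
  all2_all (all2_all (all2_all (all2_all (all2_all (all2_all (all2_all (all2_all (all2_all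
    (all2_all h b0) b1) b2) b3) b4) b5) b6) b7) b8) b9

theorem beqB_eq {x y : Bool} (h : beqB x y = true) : x = y := by
  cases x <;> cases y <;> first | rfl | exact absurd h (by decide)

theorem tb_eq (N j : ℕ) : tb N j = N.testBit j := by
  have h1 : Nat.land (Nat.shiftRight N j) 1 = N / 2 ^ j % 2 := by
    change (N >>> j) &&& 1 = _
    rw [Nat.and_one_is_mod, Nat.shiftRight_eq_div_pow]
  unfold tb
  rw [h1, Nat.testBit_eq_decide_div_mod_eq, Bool.eq_iff_iff, Nat.beq_eq]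
  simp

theorem tb_land (M N j : ℕ) : tb (Nat.land M N) j = (tb M j && tb N j) := by
  rw [tb_eq, tb_eq, tb_eq]
  exact Nat.testBit_and M N j

theorem tb_lor (M N j : ℕ) : tb (Nat.lor M N) j = (tb M j || tb N j) := by
  rw [tb_eq, tb_eq, tb_eq]
  exact Nat.testBit_or M N j

theorem tb_zero (j : ℕ) : tb 0 j = false := by
  rw [tb_eq]
  exact Nat.zero_testBit j

theorem tb_cu (a b c d j : ℕ) : tb (cu a b c d) j = ((tb a j && tb b j) && (tb c j && tb d j)) := by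
  unfold cu
  rw [tb_land, tb_land, tb_land]

theorem tb_lc {m k v j : ℕ} (h1 : tb m k = true) (h2 : tb v j = true) : tb (lc m k v) j = true := by
  unfold lc
  rw [h1]
  exact h2

theorem tb_lift {m j X0 Y0 X1 Y1 X2 Y2 X3 Y3 : ℕ} {c0 c1 c2 c3 : Bool}
    (hx0 : tb X0 j = c0) (hy0 : tb Y0 j = !c0) (hx1 : tb X1 j = c1) (hy1 : tb Y1 j = !c1)
    (hx2 : tb X2 j = c2) (hy2 : tb Y2 j = !c2) (hx3 : tb X3 j = c3) (hy3 : tb Y3 j = !c3)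
    (hm : m.testBit (c0.toNat + 2 * c1.toNat + 4 * c2.toNat + 8 * c3.toNat) = true) :
    tb (lift m X0 Y0 X1 Y1 X2 Y2 X3 Y3) j = true := by
  rw [← tb_eq] at hm
  unfold lift
  simp only [tb_lor]

  cases c0 <;> cases c1 <;> cases c2 <;> cases c3 <;>
    simp only [Bool.toNat_false, Bool.toNat_true, Nat.mul_zero, Nat.mul_one, Nat.add_zero,
      Nat.zero_add, Nat.reduceAdd, Bool.not_false, Bool.not_true] at hm hx0 hy0 hx1 hy1 hx2 hy2 hx3 hy3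
  · have h := tb_lc (j := j) (v := cu Y0 Y1 Y2 Y3) hm (by rw [tb_cu, hy0, hy1, hy2, hy3]; rfl)
    simp only [h, Bool.or_true, Bool.true_or]
  · have h := tb_lc (j := j) (v := cu Y0 Y1 Y2 X3) hm (by rw [tb_cu, hy0, hy1, hy2, hx3]; rfl)
    simp only [h, Bool.or_true, Bool.true_or]
  · have h := tb_lc (j := j) (v := cu Y0 Y1 X2 Y3) hm (by rw [tb_cu, hy0, hy1, hx2, hy3]; rfl)
    simp only [h, Bool.or_true, Bool.true_or]
  · have h := tb_lc (j := j) (v := cu Y0 Y1 X2 X3) hm (by rw [tb_cu, hy0, hy1, hx2, hx3]; rfl)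
    simp only [h, Bool.or_true, Bool.true_or]
  · have h := tb_lc (j := j) (v := cu Y0 X1 Y2 Y3) hm (by rw [tb_cu, hy0, hx1, hy2, hy3]; rfl)
    simp only [h, Bool.or_true, Bool.true_or]
  · have h := tb_lc (j := j) (v := cu Y0 X1 Y2 X3) hm (by rw [tb_cu, hy0, hx1, hy2, hx3]; rfl)
    simp only [h, Bool.or_true, Bool.true_or]
  · have h := tb_lc (j := j) (v := cu Y0 X1 X2 Y3) hm (by rw [tb_cu, hy0, hx1, hx2, hy3]; rfl)
    simp only [h, Bool.or_true, Bool.true_or]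
  · have h := tb_lc (j := j) (v := cu Y0 X1 X2 X3) hm (by rw [tb_cu, hy0, hx1, hx2, hx3]; rfl)
    simp only [h, Bool.or_true, Bool.true_or]
  · have h := tb_lc (j := j) (v := cu X0 Y1 Y2 Y3) hm (by rw [tb_cu, hx0, hy1, hy2, hy3]; rfl)
    simp only [h, Bool.or_true, Bool.true_or]
  · have h := tb_lc (j := j) (v := cu X0 Y1 Y2 X3) hm (by rw [tb_cu, hx0, hy1, hy2, hx3]; rfl)
    simp only [h, Bool.or_true, Bool.true_or]
  · have h := tb_lc (j := j) (v := cu X0 Y1 X2 Y3) hm (by rw [tb_cu, hx0, hy1, hx2, hy3]; rfl)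
    simp only [h, Bool.or_true, Bool.true_or]
  · have h := tb_lc (j := j) (v := cu X0 Y1 X2 X3) hm (by rw [tb_cu, hx0, hy1, hx2, hx3]; rfl)
    simp only [h, Bool.or_true, Bool.true_or]
  · have h := tb_lc (j := j) (v := cu X0 X1 Y2 Y3) hm (by rw [tb_cu, hx0, hx1, hy2, hy3]; rfl)
    simp only [h, Bool.or_true, Bool.true_or]
  · have h := tb_lc (j := j) (v := cu X0 X1 Y2 X3) hm (by rw [tb_cu, hx0, hx1, hy2, hx3]; rfl)
    simp only [h, Bool.or_true, Bool.true_or]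
  · have h := tb_lc (j := j) (v := cu X0 X1 X2 Y3) hm (by rw [tb_cu, hx0, hx1, hx2, hy3]; rfl)
    simp only [h, Bool.or_true, Bool.true_or]
  · have h := tb_lc (j := j) (v := cu X0 X1 X2 X3) hm (by rw [tb_cu, hx0, hx1, hx2, hx3]; rfl)
    simp only [h, Bool.or_true, Bool.true_or]

theorem gx0 (b0 b1 b2 b3 b4 b5 b6 b7 b8 b9 : Bool) :
    tb x0 (enc b0 b1 b2 b3 b4 b5 b6 b7 b8 b9) = b0 :=
  beqB_eq (allB_all hx0 b0 b1 b2 b3 b4 b5 b6 b7 b8 b9)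

theorem gy0 (b0 b1 b2 b3 b4 b5 b6 b7 b8 b9 : Bool) :
    tb y0 (enc b0 b1 b2 b3 b4 b5 b6 b7 b8 b9) = !b0 :=
  beqB_eq (allB_all hy0 b0 b1 b2 b3 b4 b5 b6 b7 b8 b9)

theorem gx1 (b0 b1 b2 b3 b4 b5 b6 b7 b8 b9 : Bool) :
    tb x1 (enc b0 b1 b2 b3 b4 b5 b6 b7 b8 b9) = b1 :=
  beqB_eq (allB_all hx1 b0 b1 b2 b3 b4 b5 b6 b7 b8 b9)

theorem gy1 (b0 b1 b2 b3 b4 b5 b6 b7 b8 b9 : Bool) :
    tb y1 (enc b0 b1 b2 b3 b4 b5 b6 b7 b8 b9) = !b1 :=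
  beqB_eq (allB_all hy1 b0 b1 b2 b3 b4 b5 b6 b7 b8 b9)

theorem gx2 (b0 b1 b2 b3 b4 b5 b6 b7 b8 b9 : Bool) :
    tb x2 (enc b0 b1 b2 b3 b4 b5 b6 b7 b8 b9) = b2 :=
  beqB_eq (allB_all hx2 b0 b1 b2 b3 b4 b5 b6 b7 b8 b9)

theorem gy2 (b0 b1 b2 b3 b4 b5 b6 b7 b8 b9 : Bool) :
    tb y2 (enc b0 b1 b2 b3 b4 b5 b6 b7 b8 b9) = !b2 :=
  beqB_eq (allB_all hy2 b0 b1 b2 b3 b4 b5 b6 b7 b8 b9)

theorem gx3 (b0 b1 b2 b3 b4 b5 b6 b7 b8 b9 : Bool) :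
    tb x3 (enc b0 b1 b2 b3 b4 b5 b6 b7 b8 b9) = b3 :=
  beqB_eq (allB_all hx3 b0 b1 b2 b3 b4 b5 b6 b7 b8 b9)

theorem gy3 (b0 b1 b2 b3 b4 b5 b6 b7 b8 b9 : Bool) :
    tb y3 (enc b0 b1 b2 b3 b4 b5 b6 b7 b8 b9) = !b3 :=
  beqB_eq (allB_all hy3 b0 b1 b2 b3 b4 b5 b6 b7 b8 b9)

theorem gx4 (b0 b1 b2 b3 b4 b5 b6 b7 b8 b9 : Bool) :
    tb x4 (enc b0 b1 b2 b3 b4 b5 b6 b7 b8 b9) = b4 :=
  beqB_eq (allB_all hx4 b0 b1 b2 b3 b4 b5 b6 b7 b8 b9)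

theorem gy4 (b0 b1 b2 b3 b4 b5 b6 b7 b8 b9 : Bool) :
    tb y4 (enc b0 b1 b2 b3 b4 b5 b6 b7 b8 b9) = !b4 :=
  beqB_eq (allB_all hy4 b0 b1 b2 b3 b4 b5 b6 b7 b8 b9)

theorem gx5 (b0 b1 b2 b3 b4 b5 b6 b7 b8 b9 : Bool) :
    tb x5 (enc b0 b1 b2 b3 b4 b5 b6 b7 b8 b9) = b5 :=
  beqB_eq (allB_all hx5 b0 b1 b2 b3 b4 b5 b6 b7 b8 b9)

theorem gy5 (b0 b1 b2 b3 b4 b5 b6 b7 b8 b9 : Bool) :
    tb y5 (enc b0 b1 b2 b3 b4 b5 b6 b7 b8 b9) = !b5 :=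
  beqB_eq (allB_all hy5 b0 b1 b2 b3 b4 b5 b6 b7 b8 b9)

theorem gx6 (b0 b1 b2 b3 b4 b5 b6 b7 b8 b9 : Bool) :
    tb x6 (enc b0 b1 b2 b3 b4 b5 b6 b7 b8 b9) = b6 :=
  beqB_eq (allB_all hx6 b0 b1 b2 b3 b4 b5 b6 b7 b8 b9)

theorem gy6 (b0 b1 b2 b3 b4 b5 b6 b7 b8 b9 : Bool) :
    tb y6 (enc b0 b1 b2 b3 b4 b5 b6 b7 b8 b9) = !b6 :=
  beqB_eq (allB_all hy6 b0 b1 b2 b3 b4 b5 b6 b7 b8 b9)

theorem gx7 (b0 b1 b2 b3 b4 b5 b6 b7 b8 b9 : Bool) :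
    tb x7 (enc b0 b1 b2 b3 b4 b5 b6 b7 b8 b9) = b7 :=
  beqB_eq (allB_all hx7 b0 b1 b2 b3 b4 b5 b6 b7 b8 b9)

theorem gy7 (b0 b1 b2 b3 b4 b5 b6 b7 b8 b9 : Bool) :
    tb y7 (enc b0 b1 b2 b3 b4 b5 b6 b7 b8 b9) = !b7 :=
  beqB_eq (allB_all hy7 b0 b1 b2 b3 b4 b5 b6 b7 b8 b9)

theorem gx8 (b0 b1 b2 b3 b4 b5 b6 b7 b8 b9 : Bool) :
    tb x8 (enc b0 b1 b2 b3 b4 b5 b6 b7 b8 b9) = b8 :=
  beqB_eq (allB_all hx8 b0 b1 b2 b3 b4 b5 b6 b7 b8 b9)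

theorem gy8 (b0 b1 b2 b3 b4 b5 b6 b7 b8 b9 : Bool) :
    tb y8 (enc b0 b1 b2 b3 b4 b5 b6 b7 b8 b9) = !b8 :=
  beqB_eq (allB_all hy8 b0 b1 b2 b3 b4 b5 b6 b7 b8 b9)

theorem gx9 (b0 b1 b2 b3 b4 b5 b6 b7 b8 b9 : Bool) :
    tb x9 (enc b0 b1 b2 b3 b4 b5 b6 b7 b8 b9) = b9 :=
  beqB_eq (allB_all hx9 b0 b1 b2 b3 b4 b5 b6 b7 b8 b9)

theorem gy9 (b0 b1 b2 b3 b4 b5 b6 b7 b8 b9 : Bool) :
    tb y9 (enc b0 b1 b2 b3 b4 b5 b6 b7 b8 b9) = !b9 :=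
  beqB_eq (allB_all hy9 b0 b1 b2 b3 b4 b5 b6 b7 b8 b9)

theorem gl0 (s1 s2 s3 s4 : St) (b0 b1 b2 b3 b4 b5 b6 b7 b8 b9 : Bool)
    (h : ok4 s1 s2 s3 s4 b0 b1 b2 b3 = true) :
    tb (pv LT0 s1 s2 s3 s4) (enc b0 b1 b2 b3 b4 b5 b6 b7 b8 b9) = true := by
  rw [Nat.eq_of_beq_eq_true (all4_all (all4_all (all4_all (all4_all hl0 s1) s2) s3) s4)]
  exact tb_lift (gx0 b0 b1 b2 b3 b4 b5 b6 b7 b8 b9) (gy0 b0 b1 b2 b3 b4 b5 b6 b7 b8 b9) (gx1 b0 b1 b2 b3 b4 b5 b6 b7 b8 b9) (gy1 b0 b1 b2 b3 b4 b5 b6 b7 b8 b9) (gx2 b0 b1 b2 b3 b4 b5 b6 b7 b8 b9) (gy2 b0 b1 b2 b3 b4 b5 b6 b7 b8 b9) (gx3 b0 b1 b2 b3 b4 b5 b6 b7 b8 b9) (gy3 b0 b1 b2 b3 b4 b5 b6 b7 b8 b9) h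

theorem gl1 (s1 s2 s3 s4 : St) (b0 b1 b2 b3 b4 b5 b6 b7 b8 b9 : Bool)
    (h : ok4 s1 s2 s3 s4 b0 b4 b5 b6 = true) :
    tb (pv LT1 s1 s2 s3 s4) (enc b0 b1 b2 b3 b4 b5 b6 b7 b8 b9) = true := by
  rw [Nat.eq_of_beq_eq_true (all4_all (all4_all (all4_all (all4_all hl1 s1) s2) s3) s4)]
  exact tb_lift (gx0 b0 b1 b2 b3 b4 b5 b6 b7 b8 b9) (gy0 b0 b1 b2 b3 b4 b5 b6 b7 b8 b9) (gx4 b0 b1 b2 b3 b4 b5 b6 b7 b8 b9) (gy4 b0 b1 b2 b3 b4 b5 b6 b7 b8 b9) (gx5 b0 b1 b2 b3 b4 b5 b6 b7 b8 b9) (gy5 b0 b1 b2 b3 b4 b5 b6 b7 b8 b9) (gx6 b0 b1 b2 b3 b4 b5 b6 b7 b8 b9) (gy6 b0 b1 b2 b3 b4 b5 b6 b7 b8 b9) h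

theorem gl2 (s1 s2 s3 s4 : St) (b0 b1 b2 b3 b4 b5 b6 b7 b8 b9 : Bool)
    (h : ok4 s1 s2 s3 s4 b1 b4 b7 b8 = true) :
    tb (pv LT2 s1 s2 s3 s4) (enc b0 b1 b2 b3 b4 b5 b6 b7 b8 b9) = true := by
  rw [Nat.eq_of_beq_eq_true (all4_all (all4_all (all4_all (all4_all hl2 s1) s2) s3) s4)]
  exact tb_lift (gx1 b0 b1 b2 b3 b4 b5 b6 b7 b8 b9) (gy1 b0 b1 b2 b3 b4 b5 b6 b7 b8 b9) (gx4 b0 b1 b2 b3 b4 b5 b6 b7 b8 b9) (gy4 b0 b1 b2 b3 b4 b5 b6 b7 b8 b9) (gx7 b0 b1 b2 b3 b4 b5 b6 b7 b8 b9) (gy7 b0 b1 b2 b3 b4 b5 b6 b7 b8 b9) (gx8 b0 b1 b2 b3 b4 b5 b6 b7 b8 b9) (gy8 b0 b1 b2 b3 b4 b5 b6 b7 b8 b9) h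

theorem gl3 (s1 s2 s3 s4 : St) (b0 b1 b2 b3 b4 b5 b6 b7 b8 b9 : Bool)
    (h : ok4 s1 s2 s3 s4 b2 b5 b7 b9 = true) :
    tb (pv LT3 s1 s2 s3 s4) (enc b0 b1 b2 b3 b4 b5 b6 b7 b8 b9) = true := by
  rw [Nat.eq_of_beq_eq_true (all4_all (all4_all (all4_all (all4_all hl3 s1) s2) s3) s4)]
  exact tb_lift (gx2 b0 b1 b2 b3 b4 b5 b6 b7 b8 b9) (gy2 b0 b1 b2 b3 b4 b5 b6 b7 b8 b9) (gx5 b0 b1 b2 b3 b4 b5 b6 b7 b8 b9) (gy5 b0 b1 b2 b3 b4 b5 b6 b7 b8 b9) (gx7 b0 b1 b2 b3 b4 b5 b6 b7 b8 b9) (gy7 b0 b1 b2 b3 b4 b5 b6 b7 b8 b9) (gx9 b0 b1 b2 b3 b4 b5 b6 b7 b8 b9) (gy9 b0 b1 b2 b3 b4 b5 b6 b7 b8 b9) h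

theorem gl4 (s1 s2 s3 s4 : St) (b0 b1 b2 b3 b4 b5 b6 b7 b8 b9 : Bool)
    (h : ok4 s1 s2 s3 s4 b3 b6 b8 b9 = true) :
    tb (pv LT4 s1 s2 s3 s4) (enc b0 b1 b2 b3 b4 b5 b6 b7 b8 b9) = true := by
  rw [Nat.eq_of_beq_eq_true (all4_all (all4_all (all4_all (all4_all hl4 s1) s2) s3) s4)]
  exact tb_lift (gx3 b0 b1 b2 b3 b4 b5 b6 b7 b8 b9) (gy3 b0 b1 b2 b3 b4 b5 b6 b7 b8 b9) (gx6 b0 b1 b2 b3 b4 b5 b6 b7 b8 b9) (gy6 b0 b1 b2 b3 b4 b5 b6 b7 b8 b9) (gx8 b0 b1 b2 b3 b4 b5 b6 b7 b8 b9) (gy8 b0 b1 b2 b3 b4 b5 b6 b7 b8 b9) (gx9 b0 b1 b2 b3 b4 b5 b6 b7 b8 b9) (gy9 b0 b1 b2 b3 b4 b5 b6 b7 b8 b9) h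

theorem gz_pos {n j : ℕ} {k : ℕ → Bool} (h : gz n k = true) (hj : tb n j = true) : k n = true := by
  cases n with
  | zero => rw [tb_zero] at hj; exact absurd hj (by decide)
  | succ n => exact h

theorem nn_val {t : T4} {j : ℕ} (ht : tb t.val j = true) : t ≠ .nil := by
  rintro rfl
  exact absurd ((tb_zero j).symm.trans ht) (by decide)

theorem nn_sel {t : T4} {s : St} (ht : t.sel s ≠ .nil) : t ≠ .nil := by
  rintro rfl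
  exact ht rfl

theorem go_nn {t : T4} {k : T4 → Bool} (h : t.go k = true) (ht : t ≠ .nil) : k t = true := by
  cases t with
  | nil => exact absurd rfl ht
  | leaf n => exact h
  | node a b c d => exact h

theorem nP_ok {q : Pay} {k : Pay → N4 → Bool} (h : nP q k = true) : k q q.dn = true := by
  cases q
  exact h

theorem nh_mb0 (s : St) : nh mb0 s = true := by
  cases s <;> rfl

/-- membership -/
def M9 (D : N9) (s : St) : Prop := nh D.m s = false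
/-- membership -/
def M8 (D : N8) (s s' : St) : Prop := nh D.m s = false ∧ M9 (D.sel s) s'
/-- membership -/
def M7 (D : N7) (s s' s'' : St) : Prop := nh D.m s = false ∧ M8 (D.sel s) s' s''
/-- membership -/
def M6 (D : N6) (s s' s'' s3 : St) : Prop := nh D.m s = false ∧ M7 (D.sel s) s' s'' s3
/-- membership -/
def M5 (D : N5) (s s' s'' s3 s4 : St) : Prop := nh D.m s = false ∧ M6 (D.sel s) s' s'' s3 s4
/-- membership -/
def M4 (D : N4) (s s' s'' s3 s4 s5 : St) : Prop :=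
  nh D.m s = false ∧ M5 (D.sel s) s' s'' s3 s4 s5

theorem c8_ok {D : N8} {s s' : St} (h : M9 (c8 D s) s') : M8 D s s' := by
  unfold c8 at h
  cases hn : nh D.m s
  · rw [hn] at h
    exact ⟨hn, h⟩
  · rw [hn] at h
    exact absurd ((nh_mb0 s').symm.trans h) (by decide)

theorem c7_ok {D : N7} {s s' s'' : St} (h : M8 (c7 D s) s' s'') : M7 D s s' s'' := by
  unfold c7 at h
  cases hn : nh D.m s
  · rw [hn] at h
    exact ⟨hn, h⟩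
  · rw [hn] at h
    exact absurd ((nh_mb0 s').symm.trans h.1) (by decide)

theorem c6_ok {D : N6} {s s' s'' s3 : St} (h : M7 (c6 D s) s' s'' s3) : M6 D s s' s'' s3 := by
  unfold c6 at h
  cases hn : nh D.m s
  · rw [hn] at h
    exact ⟨hn, h⟩
  · rw [hn] at h
    exact absurd ((nh_mb0 s').symm.trans h.1) (by decide)

theorem c5_ok {D : N5} {s s' s'' s3 s4 : St} (h : M6 (c5 D s) s' s'' s3 s4) :
    M5 D s s' s'' s3 s4 := by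
  unfold c5 at h
  cases hn : nh D.m s
  · rw [hn] at h
    exact ⟨hn, h⟩
  · rw [hn] at h
    exact absurd ((nh_mb0 s').symm.trans h.1) (by decide)

theorem c4_ok {D : N4} {s s' s'' s3 s4 s5 : St} (h : M5 (c4 D s) s' s'' s3 s4 s5) :
    M4 D s s' s'' s3 s4 s5 := by
  unfold c4 at h
  cases hn : nh D.m s
  · rw [hn] at h
    exact ⟨hn, h⟩
  · rw [hn] at h
    exact absurd ((nh_mb0 s').symm.trans h.1) (by decide)

theorem v9_ok {A j : ℕ} {t3 t4 : T4} {D : N9} (h : v9 A t3 t4 D = true) (hA : tb A j = true)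
    (s : St) (h3 : tb (t3.sel s).val j = true) (h4 : tb (t4.sel s).val j = true) : M9 D s := by
  have he := all4_all h s
  unfold e9 at he
  unfold M9
  cases hn : nh D.m s
  · rfl
  · rw [hn] at he
    have h0 : Nat.land A (Nat.land (t3.sel s).val (t4.sel s).val) = 0 :=
      Nat.eq_of_beq_eq_true he
    have h1 : tb (Nat.land A (Nat.land (t3.sel s).val (t4.sel s).val)) j = true := by
      rw [tb_land, tb_land, hA, h3, h4]; rfl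
    rw [h0, tb_zero] at h1
    exact absurd h1 (by decide)

theorem v8_ok {A j : ℕ} {t2 t3 t4 : T4} {D : N8} (h : v8 A t2 t3 t4 D = true)
    (hA : tb A j = true) (s s' : St) (h2 : tb (t2.sel s).val j = true)
    (h3 : tb (t3.sel s').val j = true) (h4 : tb ((t4.sel s).sel s').val j = true) :
    M8 D s s' := by
  have he := all4_all h s
  unfold e8 at he
  have he1 := go_nn he (nn_val h2)
  have he2 := go_nn he1 (nn_sel (nn_val h4))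
  have hB : tb (Nat.land A (t2.sel s).val) j = true := by rw [tb_land, hA, h2]; rfl
  exact c8_ok (v9_ok (gz_pos he2 hB) hB s' h3 h4)

theorem v7_ok {A j : ℕ} {t2 t3 t4 : T4} {D : N7} (h : v7 A t2 t3 t4 D = true)
    (hA : tb A j = true) (s s' s'' : St) (h2 : tb ((t2.sel s).sel s').val j = true)
    (h3 : tb ((t3.sel s).sel s'').val j = true) (h4 : tb ((t4.sel s').sel s'').val j = true) :
    M7 D s s' s'' := by
  have he := all4_all h s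
  unfold e7 at he
  have he1 := go_nn he (nn_sel (nn_val h2))
  have he2 := go_nn he1 (nn_sel (nn_val h3))
  exact c7_ok (v8_ok he2 hA s' s'' h2 h3 h4)

theorem v6_ok {A j : ℕ} {t1 t2 t3 t4 : T4} {D : N6} (h : v6 A t1 t2 t3 t4 D = true)
    (hA : tb A j = true) (r s s' s'' : St) (h1 : tb (t1.sel r).val j = true)
    (h2 : tb ((t2.sel s).sel s').val j = true)
    (h3 : tb ((t3.sel s).sel s'').val j = true)
    (h4 : tb (((t4.sel r).sel s').sel s'').val j = true) :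
    M6 D r s s' s'' := by
  have he := all4_all h r
  unfold e6 at he
  have he1 := go_nn he (nn_val h1)
  have he2 := go_nn he1 (nn_sel (nn_sel (nn_val h4)))
  have hB : tb (Nat.land A (t1.sel r).val) j = true := by rw [tb_land, hA, h1]; rfl
  exact c6_ok (v7_ok (gz_pos he2 hB) hB s s' s'' h2 h3 h4)

theorem v5_ok {A j : ℕ} {t1 t2 t3 t4 : T4} {D : N5} (h : v5 A t1 t2 t3 t4 D = true)
    (hA : tb A j = true) (q r s s' s'' : St) (h1 : tb ((t1.sel q).sel r).val j = true)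
    (h2 : tb ((t2.sel s).sel s').val j = true)
    (h3 : tb (((t3.sel q).sel s).sel s'').val j = true)
    (h4 : tb (((t4.sel r).sel s').sel s'').val j = true) :
    M5 D q r s s' s'' := by
  have he := all4_all h q
  unfold e5 at he
  have he1 := go_nn he (nn_sel (nn_val h1))
  have he2 := go_nn he1 (nn_sel (nn_sel (nn_val h3)))
  exact c5_ok (v6_ok he2 hA r s s' s'' h1 h2 h3 h4)

theorem v4_ok {A j : ℕ} {t1 t2 t3 t4 : T4} {D : N4} (h : v4 A t1 t2 t3 t4 D = true)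
    (hA : tb A j = true) (p q r s s' s'' : St) (h1 : tb (((t1.sel p).sel q).sel r).val j = true)
    (h2 : tb (((t2.sel p).sel s).sel s').val j = true)
    (h3 : tb (((t3.sel q).sel s).sel s'').val j = true)
    (h4 : tb (((t4.sel r).sel s').sel s'').val j = true) :
    M4 D p q r s s' s'' := by
  have he := all4_all h p
  unfold e4 at he
  have he1 := go_nn he (nn_sel (nn_sel (nn_val h1)))
  have he2 := go_nn he1 (nn_sel (nn_sel (nn_val h2)))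
  exact c4_ok (v5_ok he2 hA q r s s' s'' h1 h2 h3 h4)

theorem ck_all (s0 s1 s2 s3 : St) : ck s0 s1 s2 s3 = true := by
  cases s0
  · exact all4_all (all4_all (all4_all ck_a s1) s2) s3
  · exact all4_all (all4_all (all4_all ck_b s1) s2) s3
  · exact all4_all (all4_all (all4_all ck_c s1) s2) s3
  · exact all4_all (all4_all (all4_all ck_d s1) s2) s3

theorem has_of_nh {m : MB} {s : St} (h : nh m s = false) : m.has s = true := by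
  unfold nh at h
  unfold MB.has
  rw [h]
  rfl

theorem five : FiveStmt := by
  intro c b0 b1 b2 b3 b4 b5 b6 b7 b8 b9 h0 h1 h2 h3 h4
  have g0 := gl0 _ _ _ _ b0 b1 b2 b3 b4 b5 b6 b7 b8 b9 h0
  have g1 := gl1 _ _ _ _ b0 b1 b2 b3 b4 b5 b6 b7 b8 b9 h1
  have g2 := gl2 _ _ _ _ b0 b1 b2 b3 b4 b5 b6 b7 b8 b9 h2
  have g3 := gl3 _ _ _ _ b0 b1 b2 b3 b4 b5 b6 b7 b8 b9 h3
  have g4 := gl4 _ _ _ _ b0 b1 b2 b3 b4 b5 b6 b7 b8 b9 h4
  have hc := gz_pos (ck_all c.s012 c.s013 c.s023 c.s123) g0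
  have hm := v4_ok (nP_ok hc) g0 c.s014 c.s024 c.s124 c.s034 c.s134 c.s234 g1 g2 g3 g4
  obtain ⟨m1, m2, m3, m4, m5, m6⟩ := hm
  unfold C5.mem
  simp only [Bool.and_eq_true]
  exact ⟨⟨⟨⟨⟨has_of_nh m1, has_of_nh m2⟩, has_of_nh m3⟩, has_of_nh m4⟩, has_of_nh m5⟩,
    has_of_nh m6⟩

end Pool.Agent.Helper40.Ac
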