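import Pool.Agent.Helper86.Ac.Chk
import Pool.Agent.Helper40.Ac.FiveT

/-! The search showing that the tree contains all realizable patterns of five points. -/

namespace Pool.Agent.Helper40.Ac

noncomputable section

open Pool.Agent.Helper86.Acute Pool.Agent.Helper86.Ac

/-- the state is not in the set -/
def nh (m : MB) (s : St) : Bool :=
  St.casesOn (motive := fun _ => Bool) s (m.ka false) (m.kb false) (m.kc false) (m.kd false)

/-- evaluate a number, succeed if it is zero -/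
def gz (n : Nat) (k : Nat → Bool) : Bool := Nat.casesOn n true (fun j => k (Nat.succ j))

/-- empty tree -/
def n9 : N9 := ⟨mb0, pz.dn.a.a.a.a.a.a, pz.dn.a.a.a.a.a.a, pz.dn.a.a.a.a.a.a, pz.dn.a.a.a.a.a.a⟩
/-- empty tree -/
def n8 : N8 := ⟨mb0, n9, n9, n9, n9⟩
/-- empty tree -/
def n7 : N7 := ⟨mb0, n8, n8, n8, n8⟩
/-- empty tree -/
def n6 : N6 := ⟨mb0, n7, n7, n7, n7⟩
/-- empty tree -/
def n5 : N5 := ⟨mb0, n6, n6, n6, n6⟩

/-- child, empty if the state is not in the set -/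
def c8 (D : N8) (s : St) : N9 := Bool.casesOn (nh D.m s) (D.sel s) n9
/-- child, empty if the state is not in the set -/
def c7 (D : N7) (s : St) : N8 := Bool.casesOn (nh D.m s) (D.sel s) n8
/-- child, empty if the state is not in the set -/
def c6 (D : N6) (s : St) : N7 := Bool.casesOn (nh D.m s) (D.sel s) n7
/-- child, empty if the state is not in the set -/
def c5 (D : N5) (s : St) : N6 := Bool.casesOn (nh D.m s) (D.sel s) n6
/-- child, empty if the state is not in the set -/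
def c4 (D : N4) (s : St) : N5 := Bool.casesOn (nh D.m s) (D.sel s) n5

/-- last level, one state -/
def e9 (A : Nat) (t3 t4 : T4) (D : N9) (s : St) : Bool :=
  Bool.casesOn (nh D.m s) true
    (Nat.beq (Nat.land A (Nat.land (t3.sel s).val (t4.sel s).val)) 0)

/-- last level -/
def v9 (A : Nat) (t3 t4 : T4) (D : N9) : Bool := all4 (e9 A t3 t4 D)

/-- level 8, one state -/
def e8 (A : Nat) (t2 t3 t4 : T4) (D : N8) (s : St) : Bool :=
  T4.go (t2.sel s) (fun w2 => T4.go (t4.sel s) (fun u4 =>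
    gz (Nat.land A w2.val) (fun B => v9 B t3 u4 (c8 D s))))

/-- level 8 -/
def v8 (A : Nat) (t2 t3 t4 : T4) (D : N8) : Bool := all4 (e8 A t2 t3 t4 D)

/-- level 7, one state -/
def e7 (A : Nat) (t2 t3 t4 : T4) (D : N7) (s : St) : Bool :=
  T4.go (t2.sel s) (fun u2 => T4.go (t3.sel s) (fun u3 => v8 A u2 u3 t4 (c7 D s)))

/-- level 7 -/
def v7 (A : Nat) (t2 t3 t4 : T4) (D : N7) : Bool := all4 (e7 A t2 t3 t4 D)

/-- level 6, one state -/
def e6 (A : Nat) (t1 t2 t3 t4 : T4) (D : N6) (s : St) : Bool :=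
  T4.go (t1.sel s) (fun w1 => T4.go (t4.sel s) (fun u4 =>
    gz (Nat.land A w1.val) (fun B => v7 B t2 t3 u4 (c6 D s))))

/-- level 6 -/
def v6 (A : Nat) (t1 t2 t3 t4 : T4) (D : N6) : Bool := all4 (e6 A t1 t2 t3 t4 D)

/-- level 5, one state -/
def e5 (A : Nat) (t1 t2 t3 t4 : T4) (D : N5) (s : St) : Bool :=
  T4.go (t1.sel s) (fun u1 => T4.go (t3.sel s) (fun u3 => v6 A u1 t2 u3 t4 (c5 D s)))

/-- level 5 -/
def v5 (A : Nat) (t1 t2 t3 t4 : T4) (D : N5) : Bool := all4 (e5 A t1 t2 t3 t4 D)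

/-- level 4, one state -/
def e4 (A : Nat) (t1 t2 t3 t4 : T4) (D : N4) (s : St) : Bool :=
  T4.go (t1.sel s) (fun u1 => T4.go (t2.sel s) (fun u2 => v5 A u1 u2 t3 t4 (c4 D s)))

/-- level 4 -/
def v4 (A : Nat) (t1 t2 t3 t4 : T4) (D : N4) : Bool := all4 (e4 A t1 t2 t3 t4 D)

/-- the search for given first four points -/
def ck (s0 s1 s2 s3 : St) : Bool :=
  gz ((((LT0.sel s0).sel s1).sel s2).sel s3).val (fun A => nP (oL s0 s1 s2 s3) (fun _ D =>
    v4 A (LT1.sel s0) (LT2.sel s1) (LT3.sel s2) (LT4.sel s3) D))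

end

end Pool.Agent.Helper40.Ac
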